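import Pool.Agent.Helper61.NW.Goals2

/-!
# Line systems from a permutation
-/

set_option autoImplicit false

namespace Pool.Agent.Helper62.NW

open Pool.Agent.Helper52.Wq2 Pool.Agent.Helper61.NW

universe u

section Abs

variable {Γ : Type u} [Group Γ] {S : Set Γ} (φ : Equiv.Perm Γ) (X : Γ → ℤ) (H : ℤ)

/-- the position -/
def ps (g : Γ) : ℤ := X g / H

variable {φ X H}

lemma perm_inv1 (f : Equiv.Perm Γ) (x : Γ) : f (f⁻¹ x) = x := f.apply_symm_apply x

lemma perm_inv2 (f : Equiv.Perm Γ) (x : Γ) : f⁻¹ (f x) = x := f.symm_apply_apply x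

lemma X_zpow (h1 : ∀ g, X (φ g) = X g + H) (a : ℤ) (g : Γ) : X ((φ ^ a) g) = X g + a * H := by
  induction a using Int.induction_on generalizing g with
  | zero => simp
  | succ i ih =>
    rw [zpow_add_one, Equiv.Perm.mul_apply, ih, h1]
    push_cast
    ring
  | pred i ih =>
    rw [zpow_sub_one, Equiv.Perm.mul_apply, ih]
    have h2 := h1 (φ⁻¹ g)
    rw [perm_inv1] at h2
    rw [h2]
    push_cast
    ring

lemma ps_zpow (h1 : ∀ g, X (φ g) = X g + H) (hH : 0 < H) (a : ℤ) (g : Γ) :
    ps X H ((φ ^ a) g) = ps X H g + a := by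
  unfold ps
  rw [X_zpow h1, Int.add_mul_ediv_right _ _ hH.ne']

/-- the coordinates -/
noncomputable def coord (h1 : ∀ g, X (φ g) = X g + H) (hH : 0 < H) : ℤ × {g : Γ // ps X H g = 0} ≃ Γ where
  toFun p := (φ ^ p.1) p.2.1
  invFun g := (ps X H g, ⟨(φ ^ (- ps X H g)) g, by rw [ps_zpow h1 hH]; ring⟩)
  left_inv := by
    rintro ⟨a, d, hd⟩
    have h2 : ps X H ((φ ^ a) d) = a := by rw [ps_zpow h1 hH, hd, zero_add]
    simp only [Prod.mk.injEq, Subtype.mk.injEq]
    refine ⟨h2, ?_⟩
    rw [h2, ← Equiv.Perm.mul_apply, ← zpow_add, neg_add_cancel, zpow_zero, Equiv.Perm.one_apply]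
  right_inv := by
    intro g
    change (φ ^ (ps X H g)) ((φ ^ (- ps X H g)) g) = g
    rw [← Equiv.Perm.mul_apply, ← zpow_add, add_neg_cancel, zpow_zero, Equiv.Perm.one_apply]

lemma perm_smul {x : Γ} (hx : ∀ a, φ (x * a) = x * φ a) (k : ℤ) (a : Γ) : (φ ^ k) (x * a) = x * (φ ^ k) a := by
  have hinv : ∀ a, φ⁻¹ (x * a) = x * φ⁻¹ a := by
    intro a
    rw [Equiv.Perm.inv_eq_iff_eq, hx, perm_inv1]
  induction k using Int.induction_on generalizing a with
  | zero => simp
  | succ i ih => rw [zpow_add_one, Equiv.Perm.mul_apply, Equiv.Perm.mul_apply, hx, ih]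
  | pred i ih => rw [zpow_sub_one, Equiv.Perm.mul_apply, Equiv.Perm.mul_apply, hinv, ih]

lemma perm_smul' {x : Γ} (hx : ∀ a, φ (x * a) = x * φ⁻¹ a) (k : ℤ) (a : Γ) :
    (φ ^ k) (x * a) = x * (φ ^ (-k)) a := by
  have hinv : ∀ a, φ⁻¹ (x * a) = x * φ a := by
    intro a
    rw [Equiv.Perm.inv_eq_iff_eq, hx, perm_inv2]
  induction k using Int.induction_on generalizing a with
  | zero => simp
  | succ i ih =>
    rw [zpow_add_one, Equiv.Perm.mul_apply, hx, ih, neg_add, ← sub_eq_add_neg, zpow_sub_one,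
      Equiv.Perm.mul_apply]
  | pred i ih =>
    rw [zpow_sub_one, Equiv.Perm.mul_apply, hinv, ih, neg_sub, sub_neg_eq_add, add_comm, neg_neg, zpow_add_one,
      Equiv.Perm.mul_apply]

theorem lsys_of_perm (hS : IsGen S) (hH : 0 < H) (h1 : ∀ g, X (φ g) = X g + H)
    (h2 : ∀ g, (cay S).Adj g (φ g)) (h3 : ∀ a b, (cay S).Adj a b → |X a - X b| ≤ H)
    (hfin : {g | 0 ≤ X g ∧ X g < H}.Finite) (m : ℕ) (hm : 0 < m) (c : Γ) (hc : ∀ g, c * g = (φ ^ (m : ℤ)) g)
    (htr : ∀ g g' : Γ, ∃ (x : Γ) (k : ℤ), x * g = (φ ^ k) g' ∧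
      ((∀ a, φ (x * a) = x * φ a) ∨ (∀ a, φ (x * a) = x * φ⁻¹ a))) :
    ∃ (n : ℕ) (G : SimpleGraph (ℤ × Fin n)), n = Nat.card {g : Γ // 0 ≤ X g ∧ X g < H} ∧
      Lsys n m G ∧ Nonempty (cay S ≃g G) := by
  classical
  have hD : ∀ g, ps X H g = 0 ↔ 0 ≤ X g ∧ X g < H := by
    intro g
    unfold ps
    constructor
    · intro h
      have e1 := Int.emod_add_mul_ediv (X g) H
      have e2 := Int.emod_nonneg (X g) hH.ne'
      have e3 := Int.emod_lt_of_pos (X g) hH
      rw [h, mul_zero, add_zero] at e1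
      omega
    · rintro ⟨h4, h5⟩
      exact Int.ediv_eq_zero_of_lt h4 h5
  have hfinD : Finite {g : Γ // ps X H g = 0} := by
    have : {g : Γ | ps X H g = 0} = {g | 0 ≤ X g ∧ X g < H} := by
      ext g
      exact hD g
    have h4 : {g : Γ | ps X H g = 0}.Finite := by rw [this]; exact hfin
    exact h4.to_subtype
  obtain ⟨n, ⟨E⟩⟩ := Finite.exists_equiv_fin {g : Γ // ps X H g = 0}
  have hn : n = Nat.card {g : Γ // 0 ≤ X g ∧ X g < H} := by
    have e1 : Nat.card {g : Γ // ps X H g = 0} = n := by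
      rw [Nat.card_congr E, Nat.card_fin]
    rw [← e1]
    exact Nat.card_congr (Equiv.subtypeEquivRight hD)
  let F : ℤ × Fin n ≃ Γ := (Equiv.prodCongr (Equiv.refl ℤ) E.symm).trans (coord h1 hH)
  have hF : ∀ a i, F (a, i) = (φ ^ a) (E.symm i).1 := fun a i => rfl
  have hpF : ∀ a i, ps X H (F (a, i)) = a := by
    intro a i
    rw [hF, ps_zpow h1 hH, (E.symm i).2, zero_add]
  let G : SimpleGraph (ℤ × Fin n) := (cay S).comap F
  have hG : ∀ p p', G.Adj p p' ↔ (cay S).Adj (F p) (F p') := fun _ _ => Iff.rfl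
  let iso : G ≃g cay S := ⟨F, Iff.rfl⟩
  have hleft : ∀ (x a b : Γ), (cay S).Adj (x * a) (x * b) ↔ (cay S).Adj a b := by
    intro x a b
    rw [cay_adj hS, cay_adj hS]
    have : (x * a)⁻¹ * (x * b) = a⁻¹ * b := by group
    rw [this]
  refine ⟨n, G, hn, ?_, ⟨iso.symm⟩⟩
  constructor
  · -- npos
    have h4 : Nonempty {g : Γ // ps X H g = 0} := ⟨⟨(φ ^ (- ps X H (1 : Γ))) 1, by rw [ps_zpow h1 hH]; ring⟩⟩
    obtain ⟨d⟩ := h4
    exact Fin.pos (E d)
  · exact hm
  · intro a j
    rw [hG, hF, hF, add_comm, zpow_add, zpow_one, Equiv.Perm.mul_apply]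
    exact h2 _
  · intro a b i j h
    have h4 := abs_le.1 (h3 _ _ ((hG _ _).1 h))
    have ha := hpF a i
    have hb := hpF b j
    unfold ps at ha hb
    have e1 : ∀ y : ℤ, (y + H) / H = y / H + 1 := fun y => by
      have := Int.add_mul_ediv_right y 1 hH.ne'
      rwa [one_mul] at this
    have e2 : a ≤ b + 1 := by
      rw [← ha, ← hb, ← e1]
      exact Int.ediv_le_ediv hH (by omega)
    have e3 : b ≤ a + 1 := by
      rw [← ha, ← hb, ← e1]
      exact Int.ediv_le_ediv hH (by omega)
    rw [abs_le]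
    constructor <;> omega
  · -- per
    intro a b i j
    have e : ∀ a i, F (a + m, i) = c * F (a, i) := by
      intro a i
      rw [hc, hF, hF, add_comm, zpow_add, Equiv.Perm.mul_apply]
    rw [hG, hG, e, e, hleft]
  · -- conn
    have hcon : Conn (cay S) Set.univ := by
      refine ⟨⟨1, trivial⟩, fun A _ hne hcl => ?_⟩
      obtain ⟨a, ha⟩ := hne
      have hmul : ∀ t ∈ S, ∀ g ∈ A, g * t ∈ A := fun t ht g hg =>
        hcl g hg _ trivial (cay_adj_mul hS g ht)
      have this : ∀ x : Γ, ∀ g, g ∈ A ↔ g * x ∈ A := by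
        intro x
        have hx : x ∈ Subgroup.closure S := by rw [hS.1]; trivial
        induction hx using Subgroup.closure_induction with
        | mem t ht =>
          intro g
          refine ⟨hmul t ht g, fun hg => ?_⟩
          have := hmul t⁻¹ (hS.2.1 t ht) _ hg
          rwa [mul_inv_cancel_right] at this
        | one => intro g; rw [mul_one]
        | mul x y _ _ hx hy => intro g; rw [← mul_assoc, ← hy, ← hx]
        | inv x hx' hx =>
          intro g
          rw [hx (g * x⁻¹), inv_mul_cancel_right]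
      intro x _
      have := (this (a⁻¹ * x) a).1 ha
      rwa [mul_inv_cancel_left] at this
    refine ⟨⟨iso.symm 1, trivial⟩, fun A _ hne hcl => ?_⟩
    have h5 := hcon.2 {g | iso.symm g ∈ A} (Set.subset_univ _) (by
      obtain ⟨a, ha⟩ := hne
      exact ⟨iso a, by simpa using ha⟩) (by
      intro a ha b _ hab
      refine hcl _ ha _ trivial ?_
      exact (iso.symm.map_adj_iff).2 hab)
    intro x _
    have h6 := h5 (Set.mem_univ (iso x))
    simpa using h6
  · -- trans
    intro i j
    obtain ⟨x, k, hxk, hx⟩ := htr (E.symm i).1 (E.symm j).1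
    let lx : cay S ≃g cay S := ⟨Equiv.mulLeft x, hleft x _ _⟩
    let f : G ≃g G := (iso.trans lx).trans iso.symm
    have hf : ∀ p, F (f p) = x * F p := by
      intro p
      change iso (iso.symm (x * F p)) = _
      exact iso.apply_symm_apply _
    -- the line of the image
    have hsym : ∀ g : Γ, F (F.symm g) = g := fun g => F.apply_symm_apply g
    have hrec : ∀ (g : Γ) (a b : ℤ) (l : Fin n), g = F (a, l) → (φ ^ b) g = F (a + b, l) := by
      rintro _ a b l rfl
      rw [hF, hF, add_comm, zpow_add, Equiv.Perm.mul_apply]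
    rcases hx with hx | hx
    · -- positions are preserved
      let σ : Fin n → Fin n := fun l => (F.symm (x * F (0, l))).2
      let d : Fin n → ℤ := fun l => (F.symm (x * F (0, l))).1
      have hfa : ∀ a l, f (a, l) = (1 * a + d l, σ l) := by
        intro a l
        apply F.injective
        rw [hf]
        have e1 : F (a, l) = (φ ^ a) (F (0, l)) := by rw [hF, hF, zpow_zero, Equiv.Perm.one_apply]
        have e2 : x * F (0, l) = F (d l, σ l) := (hsym _).symm
        rw [e1, ← perm_smul hx, hrec _ _ a _ e2]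
        congr 2
        ring
      have hσ : Function.Injective σ := by
        intro l l' h
        have e1 := hfa 0 l
        have e2 := hfa (d l - d l') l'
        rw [h] at e1
        have e3 : f (0, l) = f (d l - d l', l') := by
          rw [e1, e2]
          congr 1
          ring
        have e4 := f.injective e3
        exact congrArg Prod.snd e4
      have hσb : Function.Bijective σ := Finite.injective_iff_bijective.1 hσ
      refine ⟨f, Equiv.ofBijective σ hσb, 1, d, Or.inl rfl, ?_, hfa⟩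
      change (F.symm (x * F (0, i))).2 = j
      have e5 : x * F (0, i) = F (k, j) := by
        rw [hF, hF, zpow_zero, Equiv.Perm.one_apply, hxk]
      rw [e5, Equiv.symm_apply_apply]
    · let σ : Fin n → Fin n := fun l => (F.symm (x * F (0, l))).2
      let d : Fin n → ℤ := fun l => (F.symm (x * F (0, l))).1
      have hfa : ∀ a l, f (a, l) = (-1 * a + d l, σ l) := by
        intro a l
        apply F.injective
        rw [hf]
        have e1 : F (a, l) = (φ ^ (- -a)) (F (0, l)) := by
          rw [hF, hF, zpow_zero, Equiv.Perm.one_apply, neg_neg]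
        have e2 : x * F (0, l) = F (d l, σ l) := (hsym _).symm
        rw [e1, ← perm_smul' hx, hrec _ _ (-a) _ e2]
        congr 2
        ring
      have hσ : Function.Injective σ := by
        intro l l' h
        have e1 := hfa 0 l
        have e2 := hfa (d l' - d l) l'
        rw [h] at e1
        have e3 : f (0, l) = f (d l' - d l, l') := by
          rw [e1, e2]
          congr 1
          ring
        have e4 := f.injective e3
        exact congrArg Prod.snd e4
      have hσb : Function.Bijective σ := Finite.injective_iff_bijective.1 hσ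
      refine ⟨f, Equiv.ofBijective σ hσb, -1, d, Or.inr rfl, ?_, hfa⟩
      change (F.symm (x * F (0, i))).2 = j
      have e5 : x * F (0, i) = F (k, j) := by
        rw [hF, hF, zpow_zero, Equiv.Perm.one_apply, hxk]
      rw [e5, Equiv.symm_apply_apply]

end Abs

end Pool.Agent.Helper62.NW
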