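import Pool.Agent.Helper52.Wq2.Cyls

/-!
# Routing a star of lines in a row of columns with crossings
-/

set_option autoImplicit false

namespace Pool.Agent.Helper62.NW

open Pool.Agent.Helper52.Wq2

section

variable {W : Type*} (G : SimpleGraph W) (P : ℤ → ℕ → W) (N : ℕ) (B : ℤ)

/-- A strand: in the window `t` it is in column `col t` below `u t` and in column `col (t + 1)` above
`v t`. -/
structure Strand where
  /-- the column at the start of a window -/
  col : ℤ → ℕ
  /-- the last height in the old column -/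
  u : ℤ → ℤ
  /-- the first height in the new column -/
  v : ℤ → ℤ
  hcol : ∀ t, col t ≤ N
  hu : ∀ t, B * t ≤ u t ∧ u t < B * t + B
  hv : ∀ t, B * t ≤ v t ∧ v t < B * t + B
  hadj : ∀ t, G.Adj (P (u t) (col t)) (P (v t) (col (t + 1)))

variable {G P N B}

/-- The part of a strand in one window. -/
def Strand.seg (s : Strand G P N B) (t : ℤ) : Set W :=
  {w | ∃ y, (B * t ≤ y ∧ y ≤ s.u t) ∧ P y (s.col t) = w} ∪
    {w | ∃ y, (s.v t ≤ y ∧ y < B * t + B) ∧ P y (s.col (t + 1)) = w}

/-- The part of a strand in the windows `t₀, …, t₀ + k`. -/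
def Strand.br (s : Strand G P N B) (t₀ : ℤ) (k : ℕ) : Set W :=
  {w | ∃ i : ℕ, i ≤ k ∧ w ∈ s.seg (t₀ + i)}

lemma Strand.first (s : Strand G P N B) (t : ℤ) : P (B * t) (s.col t) ∈ s.seg t :=
  Or.inl ⟨_, ⟨le_refl _, (s.hu t).1⟩, rfl⟩

lemma Strand.last (s : Strand G P N B) (t : ℤ) : P (B * t + B - 1) (s.col (t + 1)) ∈ s.seg t :=
  Or.inr ⟨_, ⟨by have := (s.hv t).2; omega, by omega⟩, rfl⟩

lemma Strand.seg_conn (s : Strand G P N B) (hv : ∀ y c, c ≤ N → G.Adj (P y c) (P (y + 1) c)) (t : ℤ) :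
    Conn G (s.seg t) := by
  refine Conn.union (a := P (s.u t) (s.col t)) (b := P (s.v t) (s.col (t + 1))) ?_ ?_ ?_ ?_ (s.hadj t)
  · refine conn_line (fun y => P y (s.col t)) (fun y => B * t ≤ y ∧ y ≤ s.u t) (s.u t)
      ⟨(s.hu t).1, le_refl _⟩ ?_ ?_ ?_
    · intro x h1 h2
      constructor <;> omega
    · intro x h1 h2
      constructor <;> omega
    · intro x _ _
      exact hv x _ (s.hcol t)
  · refine conn_line (fun y => P y (s.col (t + 1))) (fun y => s.v t ≤ y ∧ y < B * t + B) (s.v t)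
      ⟨le_refl _, (s.hv t).2⟩ ?_ ?_ ?_
    · intro x h1 h2
      constructor <;> omega
    · intro x h1 h2
      constructor <;> omega
    · intro x _ _
      exact hv x _ (s.hcol (t + 1))
  · exact ⟨_, ⟨(s.hu t).1, le_refl _⟩, rfl⟩
  · exact ⟨_, ⟨le_refl _, (s.hv t).2⟩, rfl⟩

lemma Strand.link (s : Strand G P N B) (hv : ∀ y c, c ≤ N → G.Adj (P y c) (P (y + 1) c)) (t t' : ℤ)
    (h : t' = t + 1) : ∃ a ∈ s.seg t, ∃ b ∈ s.seg t', G.Adj a b := by
  subst h
  refine ⟨_, s.last t, _, s.first (t + 1), ?_⟩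
  have h1 := hv (B * t + B - 1) (s.col (t + 1)) (s.hcol _)
  have h2 : B * t + B - 1 + 1 = B * (t + 1) := by ring
  rwa [h2] at h1

lemma Strand.br_conn (s : Strand G P N B) (hv : ∀ y c, c ≤ N → G.Adj (P y c) (P (y + 1) c)) (t₀ : ℤ)
    (k : ℕ) : Conn G (s.br t₀ k) :=
  conn_chain (fun i : ℕ => s.seg (t₀ + i)) k (fun i _ => s.seg_conn hv _)
    (fun i _ => s.link hv _ _ (by push_cast; ring))

/-- heights and columns of the vertices of a strand -/
lemma Strand.height (s : Strand G P N B) {t : ℤ} {w : W} (h : w ∈ s.seg t) :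
    ∃ y c, c ≤ N ∧ w = P y c ∧ B * t ≤ y ∧ y < B * t + B := by
  rcases h with ⟨y, ⟨h1, h2⟩, rfl⟩ | ⟨y, ⟨h1, h2⟩, rfl⟩
  · exact ⟨y, _, s.hcol _, rfl, h1, by have := (s.hu t).2; omega⟩
  · exact ⟨y, _, s.hcol _, rfl, by have := (s.hv t).1; omega, h2⟩

lemma window_eq {B t t' y : ℤ} (h1 : B * t ≤ y) (h2 : y < B * t + B) (h3 : B * t' ≤ y)
    (h4 : y < B * t' + B) : t = t' := by
  have hB : 0 < B := by omega
  rcases lt_trichotomy t t' with h | h | h
  · have : B * (t + 1) ≤ B * t' := mul_le_mul_of_nonneg_left (by omega) hB.le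
    rw [mul_add, mul_one] at this
    omega
  · exact h
  · have : B * (t' + 1) ≤ B * t := mul_le_mul_of_nonneg_left (by omega) hB.le
    rw [mul_add, mul_one] at this
    omega

lemma seg_window (hinj : ∀ y y' c c', c ≤ N → c' ≤ N → P y c = P y' c' → y = y' ∧ c = c')
    (s s' : Strand G P N B) {t t' : ℤ} {w : W} (h : w ∈ s.seg t) (h' : w ∈ s'.seg t') : t = t' := by
  obtain ⟨y, c, hc, rfl, h1, h2⟩ := s.height h
  obtain ⟨y', c', hc', he, h3, h4⟩ := s'.height h'
  obtain ⟨rfl, -⟩ := hinj _ _ _ _ hc hc' he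
  exact window_eq h1 h2 h3 h4

lemma seg_disj (hinj : ∀ y y' c c', c ≤ N → c' ≤ N → P y c = P y' c' → y = y' ∧ c = c')
    (s s' : Strand G P N B) (ha : ∀ t, s.col t ≠ s'.col t)
    (hb : ∀ t, s.col t = s'.col (t + 1) → s.u t < s'.v t)
    (hc : ∀ t, s.col (t + 1) = s'.col t → s'.u t < s.v t)
    {t t' : ℤ} {w : W} (h : w ∈ s.seg t) (h' : w ∈ s'.seg t') : False := by
  obtain rfl := seg_window hinj s s' h h'
  rcases h with ⟨y, ⟨h1, h2⟩, rfl⟩ | ⟨y, ⟨h1, h2⟩, rfl⟩
  · rcases h' with ⟨y', ⟨h3, h4⟩, he⟩ | ⟨y', ⟨h3, h4⟩, he⟩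
    · obtain ⟨-, e⟩ := hinj _ _ _ _ (s'.hcol _) (s.hcol _) he
      exact ha t e.symm
    · obtain ⟨rfl, e⟩ := hinj _ _ _ _ (s'.hcol _) (s.hcol _) he
      have := hb t e.symm
      omega
  · rcases h' with ⟨y', ⟨h3, h4⟩, he⟩ | ⟨y', ⟨h3, h4⟩, he⟩
    · obtain ⟨rfl, e⟩ := hinj _ _ _ _ (s'.hcol _) (s.hcol _) he
      have := hc t e.symm
      omega
    · obtain ⟨-, e⟩ := hinj _ _ _ _ (s'.hcol _) (s.hcol _) he
      exact ha (t + 1) e.symm

end

/-! ### The wave -/

/-- the column of the centre as a function of the step -/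
def wv (R r : ℤ) : ℕ := if r ≤ R then r.toNat else (2 * R - r).toNat

/-- the column of the centre -/
def wave (R t : ℤ) : ℕ := wv R (t % (2 * R))

/-- the column of a leaf -/
def leaf (i : ℕ) (f : ℕ) : ℕ := if f ≤ 2 * i + 1 then 2 * i + 2 else 2 * i + 1

lemma wave_eq {R : ℤ} (x r : ℤ) (h0 : 0 ≤ r) (h1 : r < 2 * R) : wave R (2 * R * x + r) = wv R r := by
  unfold wave
  rw [Int.mul_add_emod_self_left, Int.emod_eq_of_lt h0 h1]

lemma wave_le {R : ℤ} (hR : 0 < R) (t : ℤ) : (wave R t : ℤ) ≤ R := by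
  have h0 := Int.emod_nonneg t (show 2 * R ≠ 0 by omega)
  have h1 := Int.emod_lt_of_pos t (show 0 < 2 * R by omega)
  unfold wave wv
  split_ifs <;> omega

lemma wave_step {R : ℤ} (hR : 0 < R) (t : ℤ) :
    wave R (t + 1) = wave R t + 1 ∨ wave R t = wave R (t + 1) + 1 := by
  have h0 := Int.emod_nonneg t (show 2 * R ≠ 0 by omega)
  have h1 := Int.emod_lt_of_pos t (show 0 < 2 * R by omega)
  have h2 : t = 2 * R * (t / (2 * R)) + t % (2 * R) := (Int.mul_ediv_add_emod t (2 * R)).symm
  generalize t / (2 * R) = k at h2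
  generalize t % (2 * R) = r at h0 h1 h2
  subst h2
  rw [wave_eq k r h0 h1]
  rcases lt_or_ge (r + 1) (2 * R) with h | h
  · rw [add_assoc, wave_eq k (r + 1) (by omega) h]
    unfold wv
    split_ifs <;> omega
  · have e : 2 * R * k + r + 1 = 2 * R * (k + 1) + 0 := by
      have : r = 2 * R - 1 := by omega
      rw [this]; ring
    rw [e, wave_eq (k + 1) 0 (by omega) (by omega)]
    unfold wv
    split_ifs <;> omega

/-- a multiple in a window -/
lemma exists_shift {m : ℤ} (hm : 0 < m) (a α : ℤ) : ∃ k : ℤ, α ≤ a + m * k ∧ a + m * k < α + m := by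
  refine ⟨-((a - α) / m), ?_, ?_⟩
  · have h0 := Int.emod_nonneg (a - α) hm.ne'
    have h2 := Int.mul_ediv_add_emod (a - α) m
    have h3 : m * -((a - α) / m) = -(m * ((a - α) / m)) := by ring
    rw [h3]
    omega
  · have h1 := Int.emod_lt_of_pos (a - α) hm
    have h2 := Int.mul_ediv_add_emod (a - α) m
    have h3 : m * -((a - α) / m) = -(m * ((a - α) / m)) := by ring
    rw [h3]
    omega

theorem route {W : Type*} (G : SimpleGraph W) (q : ℕ) (m : ℤ) (hm : 0 < m) (P : ℤ → ℕ → W)
    (hinj : ∀ y y' c c', c ≤ 2 * q + 1 → c' ≤ 2 * q + 1 → P y c = P y' c' → y = y' ∧ c = c')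
    (hv : ∀ y c, c ≤ 2 * q + 1 → G.Adj (P y c) (P (y + 1) c))
    (hg : ∀ c, c ≤ 2 * q → ∃ a b : ℤ, |a - b| ≤ 1 ∧ ∀ k : ℤ, G.Adj (P (a + m * k) c) (P (b + m * k) (c + 1)))
    (hx : ∀ i, i < q → ∃ p : ℤ, ∀ k : ℤ, G.Adj (P (p + m * k) (2 * i + 1)) (P (p + 1 + m * k) (2 * i + 2)) ∧
      G.Adj (P (p + 1 + m * k) (2 * i + 1)) (P (p + m * k) (2 * i + 2))) :
    Mn (StarZ (Fin q)) G := by
  classical
  set B : ℤ := 4 * m with hB
  set R : ℤ := 2 * q + 1 with hR
  have hR0 : 0 < R := by omega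
  -- planar edges in windows
  have hg' : ∀ (t : ℤ) (c : ℕ), c ≤ 2 * q → ∃ a b : ℤ, B * t ≤ a ∧ a < B * t + 2 * m ∧ B * t ≤ b ∧
      b < B * t + 2 * m ∧ G.Adj (P a c) (P b (c + 1)) := by
    intro t c hc
    obtain ⟨a, b, hab, h⟩ := hg c hc
    obtain ⟨k, h1, h2⟩ := exists_shift hm (max a b) (B * t + 1)
    rw [abs_le] at hab
    refine ⟨a + m * k, b + m * k, ?_, ?_, ?_, ?_, h k⟩ <;> rcases le_total a b with h3 | h3
    all_goals
      first
      | rw [max_eq_right h3] at h1 h2
      | rw [max_eq_left h3] at h1 h2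
      omega
  have hx' : ∀ (t : ℤ) (i : ℕ), i < q → ∃ p : ℤ, B * t + 2 * m ≤ p ∧ p < B * t + 3 * m ∧
      G.Adj (P p (2 * i + 1)) (P (p + 1) (2 * i + 2)) ∧
      G.Adj (P (p + 1) (2 * i + 1)) (P p (2 * i + 2)) := by
    intro t i hi
    obtain ⟨p, h⟩ := hx i hi
    obtain ⟨k, h1, h2⟩ := exists_shift hm p (B * t + 2 * m)
    obtain ⟨h3, h4⟩ := h k
    rw [add_right_comm] at h3 h4
    exact ⟨p + m * k, h1, by omega, h3, h4⟩
  -- the centre
  have hF := wave_le hR0
  have hS := wave_step hR0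
  have hcen : ∀ t : ℤ, ∃ u v : ℤ, (B * t ≤ u ∧ u < B * t + B) ∧ (B * t ≤ v ∧ v < B * t + B) ∧
      G.Adj (P u (wave R t)) (P v (wave R (t + 1))) ∧
      ∀ i, i < q → min (wave R t) (wave R (t + 1)) = 2 * i + 1 →
        v = u + 1 ∧ B * t + 2 * m ≤ u ∧ G.Adj (P u (wave R (t + 1))) (P v (wave R t)) := by
    intro t
    have h1 := hF t
    have h2 := hF (t + 1)
    have key : ∀ c : ℕ, c ≤ 2 * q → ((wave R t = c ∧ wave R (t + 1) = c + 1) ∨
        (wave R t = c + 1 ∧ wave R (t + 1) = c)) → ∃ u v : ℤ, (B * t ≤ u ∧ u < B * t + B) ∧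
          (B * t ≤ v ∧ v < B * t + B) ∧
      G.Adj (P u (wave R t)) (P v (wave R (t + 1))) ∧
      ∀ i, i < q → min (wave R t) (wave R (t + 1)) = 2 * i + 1 →
        v = u + 1 ∧ B * t + 2 * m ≤ u ∧ G.Adj (P u (wave R (t + 1))) (P v (wave R t)) := by
      intro c hc hcase
      by_cases hodd : ∃ i, i < q ∧ c = 2 * i + 1
      · obtain ⟨i, hi, rfl⟩ := hodd
        obtain ⟨p, hp1, hp2, hp3, hp4⟩ := hx' t i hi
        refine ⟨p, p + 1, ⟨by omega, by omega⟩, ⟨by omega, by omega⟩, ?_, ?_⟩
        · rcases hcase with ⟨e1, e2⟩ | ⟨e1, e2⟩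
          · rw [e1, e2]; exact hp3
          · rw [e1, e2]; exact hp4.symm
        · intro i' _ _
          refine ⟨rfl, hp1, ?_⟩
          rcases hcase with ⟨e1, e2⟩ | ⟨e1, e2⟩
          · rw [e1, e2]; exact hp4.symm
          · rw [e1, e2]; exact hp3
      · obtain ⟨a, b, h3, h4, h5, h6, h7⟩ := hg' t c hc
        rcases hcase with ⟨e1, e2⟩ | ⟨e1, e2⟩
        · refine ⟨a, b, ⟨h3, by omega⟩, ⟨h5, by omega⟩, ?_, ?_⟩
          · rw [e1, e2]; exact h7
          · intro i' hi' he
            exact absurd ⟨i', hi', by omega⟩ hodd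
        · refine ⟨b, a, ⟨h5, by omega⟩, ⟨h3, by omega⟩, ?_, ?_⟩
          · rw [e1, e2]; exact h7.symm
          · intro i' hi' he
            exact absurd ⟨i', hi', by omega⟩ hodd
    rcases hS t with h | h
    · exact key (wave R t) (by omega) (Or.inl ⟨rfl, h⟩)
    · exact key (wave R (t + 1)) (by omega) (Or.inr ⟨h, rfl⟩)
  choose u v hu hv' hadj hodd using hcen
  let C : Strand G P (2 * q + 1) B :=
    { col := wave R
      u := u
      v := v
      hcol := fun t => by have := hF t; omega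
      hu := hu
      hv := hv'
      hadj := hadj }
  -- the leaves
  have hleaf : ∀ (i : ℕ) (t : ℤ), min (wave R t) (wave R (t + 1)) = 2 * i + 1 →
      leaf i (wave R t) = wave R (t + 1) ∧ leaf i (wave R (t + 1)) = wave R t := by
    intro i t h
    have := hS t
    unfold leaf
    split_ifs <;> omega
  have hleaf' : ∀ (i : ℕ) (t : ℤ), min (wave R t) (wave R (t + 1)) ≠ 2 * i + 1 →
      leaf i (wave R t) = leaf i (wave R (t + 1)) ∧ wave R t ≠ leaf i (wave R (t + 1)) ∧
        wave R (t + 1) ≠ leaf i (wave R t) := by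
    intro i t h
    have := hS t
    unfold leaf
    split_ifs <;> omega
  let L : Fin q → Strand G P (2 * q + 1) B := fun i =>
    { col := fun t => leaf i (wave R t)
      u := fun t => if min (wave R t) (wave R (t + 1)) = 2 * i + 1 then u t else B * t
      v := fun t => if min (wave R t) (wave R (t + 1)) = 2 * i + 1 then v t else B * t + 1
      hcol := fun t => by
        have := i.2
        unfold leaf
        split_ifs <;> omega
      hu := fun t => by
        split_ifs
        · exact hu t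
        · constructor <;> omega
      hv := fun t => by
        split_ifs
        · exact hv' t
        · constructor <;> omega
      hadj := fun t => by
        split_ifs with h
        · obtain ⟨e1, e2⟩ := hleaf i t h
          rw [e1, e2]
          exact (hodd t i i.2 h).2.2
        · rw [← (hleaf' i t h).1]
          refine hv _ _ ?_
          have := i.2
          unfold leaf
          split_ifs <;> omega }
  -- disjointness
  have hCL : ∀ (i : Fin q) {t t' : ℤ} {w : W}, w ∈ C.seg t → w ∈ (L i).seg t' → False := by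
    intro i t t' w
    refine seg_disj hinj C (L i) ?_ ?_ ?_
    · intro t
      change wave R t ≠ leaf i (wave R t)
      unfold leaf
      split_ifs <;> omega
    · intro t h
      change wave R t = leaf i (wave R (t + 1)) at h
      change u t < if min (wave R t) (wave R (t + 1)) = 2 * i + 1 then v t else B * t + 1
      have h1 : min (wave R t) (wave R (t + 1)) = 2 * i + 1 := by
        by_contra h2
        exact (hleaf' i t h2).2.1 h
      rw [if_pos h1, (hodd t i i.2 h1).1]
      omega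
    · intro t h
      change wave R (t + 1) = leaf i (wave R t) at h
      change (if min (wave R t) (wave R (t + 1)) = 2 * i + 1 then u t else B * t) < v t
      have h1 : min (wave R t) (wave R (t + 1)) = 2 * i + 1 := by
        by_contra h2
        exact (hleaf' i t h2).2.2 h
      rw [if_pos h1, (hodd t i i.2 h1).1]
      omega
  have hcolL : ∀ (i : Fin q) (t : ℤ), (L i).col t = 2 * i + 1 ∨ (L i).col t = 2 * i + 2 := by
    intro i t
    change leaf i (wave R t) = _ ∨ leaf i (wave R t) = _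
    unfold leaf
    split_ifs <;> omega
  have hLL : ∀ (i j : Fin q), i ≠ j → ∀ {t t' : ℤ} {w : W}, w ∈ (L i).seg t → w ∈ (L j).seg t' → False := by
    intro i j hij t t' w
    have hij' : (i : ℕ) ≠ j := fun h => hij (Fin.ext h)
    refine seg_disj hinj (L i) (L j) ?_ ?_ ?_
    · intro t h
      have h1 := hcolL i t
      have h2 := hcolL j t
      omega
    · intro t h
      have h1 := hcolL i t
      have h2 := hcolL j (t + 1)
      omega
    · intro t h
      have h1 := hcolL i (t + 1)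
      have h2 := hcolL j t
      omega
  -- the strands
  let St : Option (Fin q) → Strand G P (2 * q + 1) B := fun o => o.elim C L
  let K : ℕ := 4 * q + 1
  have hK : 2 * R = (K : ℤ) + 1 := by simp only [K, hR]; push_cast; ring
  refine ⟨fun a => (St a.2).br (2 * R * a.1) K, fun a => (St a.2).br_conn hv _ _, ?_, ?_⟩
  · rintro ⟨x, o⟩ ⟨x', o'⟩ w ⟨i, hi, h⟩ ⟨i', hi', h'⟩
    have ho : o = o' := by
      rcases o with _ | j <;> rcases o' with _ | j'
      · rfl
      · exact (hCL j' h h').elim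
      · exact (hCL j h' h).elim
      · by_contra hne
        exact hLL j j' (fun e => hne (by rw [e])) h h'
    subst ho
    have ht := seg_window hinj _ _ h h'
    simp only at ht
    have : x = x' := by
      refine window_eq (B := 2 * R) (y := 2 * R * x + i) (by omega) ?_ ?_ ?_
      · rw [hK] at *
        omega
      · rw [ht]; omega
      · rw [ht]; rw [hK] at *; omega
    rw [this]
  · -- adjacency
    have main : ∀ a b : ℤ × Option (Fin q), a ≠ b →
        ((a.2 = b.2 ∧ b.1 = a.1 + 1) ∨ (a.1 = b.1 ∧ a.2 = none)) →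
        ∃ w ∈ (St a.2).br (2 * R * a.1) K, ∃ w' ∈ (St b.2).br (2 * R * b.1) K, G.Adj w w' := by
      rintro ⟨x, o⟩ ⟨x', o'⟩ hne (⟨h1, h2⟩ | ⟨h1, h2⟩)
      · simp only at h1 h2
        subst h1 h2
        obtain ⟨w, hw, w', hw', h⟩ := (St o).link hv (2 * R * x + K) (2 * R * (x + 1) + (0 : ℕ))
          (by rw [hK]; push_cast; ring)
        exact ⟨w, ⟨K, le_refl _, hw⟩, w', ⟨0, Nat.zero_le _, hw'⟩, h⟩
      · simp only at h1 h2
        subst h1 h2
        rcases o' with _ | i
        · exact absurd rfl hne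
        · -- the window in which the centre changes places with the leaf
          have hi := i.2
          have e1 : wave R (2 * R * x + ((2 * (i : ℕ) + 1 : ℕ) : ℤ)) = 2 * i + 1 := by
            rw [wave_eq x _ (by omega) (by omega)]
            unfold wv
            rw [if_pos (by omega)]
            omega
          have e2 : wave R (2 * R * x + ((2 * (i : ℕ) + 1 : ℕ) : ℤ) + 1) = 2 * i + 2 := by
            rw [add_assoc, wave_eq x _ (by omega) (by omega)]
            unfold wv
            rw [if_pos (by omega)]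
            omega
          set t : ℤ := 2 * R * x + ((2 * (i : ℕ) + 1 : ℕ) : ℤ) with ht
          have h3 : min (wave R t) (wave R (t + 1)) = 2 * i + 1 := by omega
          obtain ⟨o1, o2, o3⟩ := hodd t i hi h3
          obtain ⟨a, b, g1, g2, g3, g4, g5⟩ := hg' t (2 * i + 1) (by omega)
          refine ⟨P a (2 * i + 1), ⟨2 * i + 1, by simp only [K]; omega, ?_⟩, P b (2 * i + 1 + 1),
            ⟨2 * i + 1, by simp only [K]; omega, ?_⟩, g5⟩
          · refine Or.inl ⟨a, ⟨g1, ?_⟩, ?_⟩
            · change a ≤ u t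
              omega
            · change P a (wave R t) = _
              rw [e1]
          · refine Or.inl ⟨b, ⟨g3, ?_⟩, ?_⟩
            · change b ≤ if min (wave R t) (wave R (t + 1)) = 2 * (i : ℕ) + 1 then u t else B * t
              rw [if_pos h3]
              omega
            · change P b (leaf i (wave R t)) = _
              rw [e1]
              unfold leaf
              rw [if_pos (le_refl _)]
    intro a b hab
    rw [StarZ, SimpleGraph.fromRel_adj] at hab
    obtain ⟨hne, h | h⟩ := hab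
    · exact main a b hne h
    · obtain ⟨w, hw, w', hw', h⟩ := main b a hne.symm h
      exact ⟨w', hw', w, hw, h.symm⟩

end Pool.Agent.Helper62.NW
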